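import Mathlib
import Pool.Agent.Lead.NR.Gap

namespace Pool.Agent.Results.MP_41caf5_nt.MinusThree

/-- `p` is a prime and `a` is the largest negative primitive root modulo `p`. -/
def Largest (a : ℤ) (p : ℕ) : Prop :=
  p.Prime ∧ orderOf (a : ZMod p) = p - 1 ∧ ∀ b : ℤ, a < b → b < 0 → orderOf (b : ZMod p) ≠ p - 1

theorem largest_iff (p : ℕ) : Largest (-3) p ↔ Pool.Agent.Lead.NR.Good p := by
  unfold Largest Pool.Agent.Lead.NR.Good
  refine and_congr_right fun _ => and_congr (by simp) ⟨fun h => ⟨?_, ?_⟩, fun h b h1 h2 => ?_⟩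
  · simpa using h (-2) (by norm_num) (by norm_num)
  · simpa using h (-1) (by norm_num) (by norm_num)
  · obtain rfl | rfl : b = -2 ∨ b = -1 := by omega
    · simpa using h.1
    · simpa using h.2

theorem result : (¬ ∃ (x : ℤ) (m : ℕ), 1 < m ∧ x ^ m = -3) ∧
    Largest (-3) 51459203 ∧ Largest (-3) 51460433 ∧
    (∀ q, 51459203 < q → q < 51460433 → ¬ Largest (-3) q) ∧
    ∀ n : ℕ, n = Set.ncard {q | q ≤ 51459203 ∧ Largest (-3) q} →
      1 ≤ n ∧ (51459203 : ℝ) ^ (1 + 1 / (n : ℝ)) ≤ 51460433 := by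
  classical
  refine ⟨?_, (largest_iff _).mpr Pool.Agent.Lead.NR.goodA,
    (largest_iff _).mpr Pool.Agent.Lead.NR.goodB,
    fun q h1 h2 h => Pool.Agent.Lead.NR.gap q h1 h2 ((largest_iff _).mp h), ?_⟩
  · rintro ⟨x, m, hm, h⟩
    have h1 : x.natAbs ^ m = 3 := by
      have := congrArg Int.natAbs h
      simpa [Int.natAbs_pow] using this
    have := (Nat.Prime.pow_eq_iff Nat.prime_three).mp h1
    omega
  · intro n hn
    have e : n = Pool.Agent.Lead.NR.cnt 51459203 := by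
      rw [hn, Pool.Agent.Lead.NR.cnt, ← Set.ncard_coe_finset]
      congr 1
      ext q
      simp only [Set.mem_ofPred_eq, Finset.coe_filter, Finset.mem_range, largest_iff,
        Nat.lt_succ_iff]
    have h1 : 742900 ≤ n := e ▸ Pool.Agent.Lead.NR.cnt_big
    refine ⟨by omega, ?_⟩
    have h2 : (742900 : ℝ) ≤ n := by exact_mod_cast h1
    have h3 : (51459203 : ℝ) ^ (1 + 1 / (n : ℝ)) ≤ (51459203 : ℝ) ^ (1 + 1 / (742900 : ℝ)) :=
      Real.rpow_le_rpow_of_exponent_le (by norm_num) (by gcongr)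
    refine h3.trans ?_
    have h4 := Nat.cast_le (α := ℝ) |>.mpr Pool.Agent.Lead.NR.ineq
    rw [Nat.cast_pow, Nat.cast_pow] at h4
    have key : ∀ (a b : ℝ) (k : ℕ), 0 < a → 0 < b → k ≠ 0 → a ^ (k + 1) ≤ b ^ k →
        a ^ (1 + 1 / (k : ℝ)) ≤ b := by
      intro a b k ha hb hk h
      have hk' : (k : ℝ) ≠ 0 := by exact_mod_cast hk
      refine le_of_pow_le_pow_left₀ hk hb.le ?_
      rw [← Real.rpow_natCast, ← Real.rpow_mul ha.le,
        show (1 + 1 / (k : ℝ)) * k = ((k + 1 : ℕ) : ℝ) by push_cast; field_simp, Real.rpow_natCast]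
      exact h
    exact key _ _ 742900 (by norm_num) (by norm_num) (by norm_num) h4

end Pool.Agent.Results.MP_41caf5_nt.MinusThree
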